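import Mathlib
import Pool.Agent.Helper86K9.HK.Asm
import Pool.Agent.Helper86K9.HK.Four
import Pool.Agent.Helper55K9.HK.Even
import Pool.Agent.Helper95K9.HO.Odd
import Pool.Agent.Results.MP_9bc296_ag.GenericSymmetric

/-!
# Primality of permanental ideals of generic, symmetric and Hankel matrices

Let `k` be a field with `2 ≠ 0` in `k`, for example any field of odd characteristic, and let
`2 ≤ t ≤ min (m, n)`. For each of the three types of matrices (generic, symmetric, Hankel) the
ideal generated by the permanents of all `t × t` submatrices is prime if and only if `t = m = n`.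

Proof for the Hankel matrices. The variety of `P_t` contains the two coordinate subspaces of the
first and the last `t - 1` variables, so that, if `P_t` is prime, all its Zariski tangent spaces have
dimension at least `t`, and pairs of tangent vectors extend to second order at the points where the
dimension is `t` (`Pool/Agent/Helper86K9/HK/Crit1.lean`, `Crit2.lean`). For all `(t, m, n)` other
than `t = m = n` a point is given where this fails.
-/

set_option autoImplicit false

namespace Pool.Agent.Results.MP_9bc296_ag.PrimeIff

open Matrix

/-- The ideal `P_t(X)` generated by the permanents of all `t × t` submatrices of `X`. -/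
def permIdeal {R : Type*} [CommRing R] {m n : ℕ} (t : ℕ) (X : Matrix (Fin m) (Fin n) R) :
    Ideal R :=
  Ideal.span {x | ∃ (r : Fin t ↪o Fin m) (c : Fin t ↪o Fin n), x = (X.submatrix r c).permanent}

/-- The generic `m × n` matrix: the entries are distinct indeterminates. -/
noncomputable def genericMatrix (k : Type*) [Field k] (m n : ℕ) :
    Matrix (Fin m) (Fin n) (MvPolynomial (Fin m × Fin n) k) :=
  Matrix.of fun i j => MvPolynomial.X (i, j)

/-- The symmetric `n × n` matrix: the entries at `(i, j)` and `(j, i)` are the same indeterminate,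
named by the unordered pair `s(i, j)`. -/
noncomputable def symmetricMatrix (k : Type*) [Field k] (n : ℕ) :
    Matrix (Fin n) (Fin n) (MvPolynomial (Sym2 (Fin n)) k) :=
  Matrix.of fun i j => MvPolynomial.X s(i, j)

/-- The `m × n` Hankel matrix: with rows and columns counted from `0`, the entry at `(i, j)` is the
`(i + j)`-th of `m + n - 1` indeterminates, which are also counted from `0`. -/
noncomputable def hankelMatrix (k : Type*) [Field k] (m n : ℕ) :
    Matrix (Fin m) (Fin n) (MvPolynomial (Fin (m + n - 1)) k) :=
  Matrix.of fun i j => MvPolynomial.X ⟨i.val + j.val, by omega⟩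

/-- Let `k` be a field in which `2 ≠ 0`, and `t ≥ 2`. For generic, for symmetric and for Hankel
matrices, with `t ≤ min (m, n)`, the ideal generated by the permanents of the `t × t` submatrices
is prime if and only if `t = m = n`. -/
theorem result (k : Type*) [Field k] (h2 : (2 : k) ≠ 0) (t : ℕ) (ht : 2 ≤ t) :
    (∀ m n, t ≤ m → t ≤ n → ((permIdeal t (genericMatrix k m n)).IsPrime ↔ t = m ∧ t = n)) ∧
    (∀ n, t ≤ n → ((permIdeal t (symmetricMatrix k n)).IsPrime ↔ t = n)) ∧
    (∀ m n, t ≤ m → t ≤ n → ((permIdeal t (hankelMatrix k m n)).IsPrime ↔ t = m ∧ t = n)) := by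
  refine ⟨fun m n hm hn => ⟨fun h => ?_, ?_⟩, fun n hn => ⟨fun h => ?_, ?_⟩, fun m n hm hn => ?_⟩
  · by_contra hne
    exact GenericSymmetric.result k h2 m n t ht hm hn hne _ _ (GenericSymmetric.generic m n) h
  · rintro ⟨rfl, rfl⟩
    exact Pool.Agent.Helper86K9.HK.prmg k t (by omega)
  · by_contra hne
    exact GenericSymmetric.result k h2 n n t ht hn hn (fun h => hne h.1) _ _
      (GenericSymmetric.symmetric n) h
  · rintro rfl
    exact Pool.Agent.Helper86K9.HK.prms k t (by omega)
  · exact Pool.Agent.Helper86K9.HK.hankel_main
      (Pool.Agent.Helper86K9.HK.e2_of (fun k _ h => Pool.Agent.Helper86K9.HK.four k h)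
        (fun k _ h => Pool.Agent.Helper55K9.HK.even k h)
        (fun k _ h => Pool.Agent.Helper95K9.HO.odd k h)) k h2 t m n ht hm hn

end Pool.Agent.Results.MP_9bc296_ag.PrimeIff
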